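import Mathlib

set_option autoImplicit false

namespace Pool.Agent.Results.MP_fb02e9_lc.Equal

open Cardinal Filter Topology

/-- independent families of infinite subsets of `ℕ`, given by characteristic functions -/
def Indep (𝒜 : Set (ℕ → Bool)) : Prop :=
  (∀ a ∈ 𝒜, {n | a n = true}.Infinite) ∧
  ∀ F G : Finset (ℕ → Bool), (↑F : Set (ℕ → Bool)) ⊆ 𝒜 → (↑G : Set (ℕ → Bool)) ⊆ 𝒜 →
    Disjoint F G → {n | (∀ a ∈ F, a n = true) ∧ ∀ b ∈ G, b n = false}.Infinite

/-- least size of a non-meager subset of the Cantor space -/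
noncomputable def nonMeager : Cardinal.{0} :=
  sInf {κ | ∃ X : Set (ℕ → Bool), ¬ IsMeagre X ∧ #X = κ}

/-- least size of a non-meager independent family -/
noncomputable def iMeager : Cardinal.{0} :=
  sInf {κ | ∃ 𝒜 : Set (ℕ → Bool), Indep 𝒜 ∧ ¬ IsMeagre 𝒜 ∧ #𝒜 = κ}

lemma resid (T : ℕ → Finset ℕ) (y : ℕ → ℕ → Bool) (N : Set ℕ)
    (hT : ∀ M j, ∃ k ∈ N, j ≤ k ∧ ∀ i ∈ T k, M ≤ i) :
    {w : ℕ → Bool | ∀ j, ∃ k ∈ N, j ≤ k ∧ ∀ i ∈ T k, w i = y k i} ∈ residual (ℕ → Bool) := by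
  rw [Set.setOf_forall, countable_iInter_mem]
  intro j
  apply residual_of_dense_open
  · have : {w : ℕ → Bool | ∃ k ∈ N, j ≤ k ∧ ∀ i ∈ T k, w i = y k i} =
        ⋃ k ∈ {k | k ∈ N ∧ j ≤ k}, ⋂ i ∈ T k, (fun w : ℕ → Bool => w i) ⁻¹' {y k i} := by
      ext w; simp [and_assoc]
    rw [this]
    exact isOpen_biUnion fun k _ => isOpen_biInter_finset fun i _ =>
      (isOpen_discrete _).preimage (continuous_apply i)
  · intro w0
    choose k hk1 hk2 hk3 using fun M => hT M j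
    apply mem_closure_of_tendsto (b := atTop)
      (f := fun M : ℕ => fun i => if i < M then w0 i else y (k M) i)
    · rw [tendsto_pi_nhds]
      intro i
      apply tendsto_const_nhds.congr'
      filter_upwards [eventually_gt_atTop i] with M hM
      simp [hM]
    · apply Eventually.of_forall
      intro M
      refine ⟨k M, hk1 M, hk2 M, fun i hi => ?_⟩
      simp [not_lt.2 (hk3 M i hi)]

def flip (t : ℕ → Bool) : (ℕ → Bool) ≃ₜ (ℕ → Bool) where
  toFun w i := xor (w i) (t i)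
  invFun w i := xor (w i) (t i)
  left_inv w := by funext i; simp
  right_inv w := by funext i; simp
  continuous_toFun := continuous_pi fun i =>
    (continuous_of_discreteTopology (f := fun b : Bool => xor b (t i))).comp (continuous_apply i)
  continuous_invFun := continuous_pi fun i =>
    (continuous_of_discreteTopology (f := fun b : Bool => xor b (t i))).comp (continuous_apply i)

lemma step (V : Set (ℕ → Bool)) (ho : IsOpen V) (hd : Dense V) (N : ℕ) :
    ∃ (T : Finset ℕ) (s : ℕ → Bool), (∀ i ∈ T, N ≤ i) ∧ ∀ w, (∀ i ∈ T, w i = s i) → w ∈ V := by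
  let ex : (Fin N → Bool) → ℕ → Bool := fun t i => if h : i < N then t ⟨i, h⟩ else false
  have h1 : ∀ t, IsOpen (flip (ex t) ⁻¹' V) := fun t => ho.preimage (flip _).continuous
  have h2 : ∀ t, Dense (flip (ex t) ⁻¹' V) := fun t => hd.preimage (flip _).isOpenMap
  obtain ⟨s, hs⟩ := (dense_iInter_of_isOpen h1 h2).nonempty
  obtain ⟨I, u, hu, hI⟩ := isOpen_pi_iff.1 (isOpen_iInter_of_finite h1) s hs
  refine ⟨I.filter (N ≤ ·), s, fun i hi => (Finset.mem_filter.1 hi).2, fun w hw => ?_⟩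
  let t : Fin N → Bool := fun i => xor (w i) (s i)
  have : flip (ex t) w ∈ (I : Set ℕ).pi u := by
    intro i hi
    have : flip (ex t) w i = s i := by
      show xor (w i) (ex t i) = s i
      by_cases h : i < N
      · simp [ex, h, t]
      · simp [ex, h, hw i (Finset.mem_filter.2 ⟨hi, not_lt.1 h⟩)]
    rw [this]
    exact (hu i hi).2
  have := Set.mem_iInter.1 (hI this) t
  have e : flip (ex t) (flip (ex t) w) = w := (flip (ex t)).left_inv w
  rw [Set.mem_preimage, e] at this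
  exact this

lemma chopped (M : Set (ℕ → Bool)) (hM : IsMeagre M) :
    ∃ (T : ℕ → Finset ℕ) (y : ℕ → ℕ → Bool), (∀ k, ∀ i ∈ T k, k ≤ i) ∧
      ∀ w, (∀ j, ∃ k, j ≤ k ∧ ∀ i ∈ T k, w i = y k i) → w ∉ M := by
  obtain ⟨S, h1, h2, h3, h4⟩ := mem_residual_iff.1 hM
  obtain ⟨U, hU⟩ := (h3.insert Set.univ).exists_eq_range (Set.insert_nonempty _ _)
  have hU' : ∀ n, IsOpen (U n) ∧ Dense (U n) := by
    intro n
    have : U n ∈ insert Set.univ S := hU ▸ ⟨n, rfl⟩
    rcases this with h | h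
    · rw [h]; exact ⟨isOpen_univ, dense_univ⟩
    · exact ⟨h1 _ h, h2 _ h⟩
  have := fun k : ℕ => step (⋂ j : Fin (k + 1), U j) (isOpen_iInter_of_finite fun j => (hU' j).1)
    (dense_iInter_of_isOpen (fun j => (hU' j).1) (fun j => (hU' j).2)) k
  choose T y a1 a2 using this
  refine ⟨T, y, a1, fun w hw => h4 fun t ht => ?_⟩
  obtain ⟨j, rfl⟩ : t ∈ Set.range U := hU ▸ Set.mem_insert_of_mem _ ht
  obtain ⟨k, hk, hk'⟩ := hw j
  exact Set.mem_iInter.1 (a2 k w hk') ⟨j, by omega⟩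

lemma exists_mem {X R : Set (ℕ → Bool)} (hX : ¬ IsMeagre X) (hR : R ∈ residual (ℕ → Bool)) :
    ∃ x ∈ X, x ∈ R := by
  by_contra h
  push Not at h
  exact hX (mem_of_superset hR fun x hx hxX => h x hxX hx)

abbrev Om : Type := Σ n : ℕ, (Fin n → Bool) → Bool

instance : Infinite Om :=
  Infinite.of_injective (fun n : ℕ => (⟨n, fun _ => true⟩ : Om)) fun _ _ h => congrArg Sigma.fst h

lemma blocks : ∃ (β : ℕ → ℕ) (bit : (ℕ → Bool) → ℕ → Bool),
    (∀ M, ∃ k0, ∀ m, k0 ≤ m → M ≤ β m) ∧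
    ∀ (R : Set (ℕ → Bool)), R.Finite → ∀ c : (ℕ → Bool) → Bool,
      ∃ n0, ∀ n, n0 ≤ n → ∃ m, β m = n ∧ ∀ r ∈ R, bit r m = c r := by
  classical
  obtain ⟨e⟩ : Nonempty (ℕ ≃ Om) := nonempty_equiv_of_countable
  refine ⟨fun m => (e m).1, fun r m => (e m).2 (fun i => r i), fun M => ?_, fun R hR c => ?_⟩
  · have : {m | (e m).1 < M}.Finite := by
      have h : {p : Om | p.1 < M}.Finite := by
        have : {p : Om | p.1 < M} = ⋃ n ∈ Set.Iio M, Set.range (Sigma.mk n) := by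
          ext ⟨n, A⟩
          simp only [Set.mem_setOf_eq, Set.mem_iUnion, Set.mem_Iio, Set.mem_range]
          constructor
          · intro h; exact ⟨n, h, A, rfl⟩
          · rintro ⟨k, hk, B, h⟩
            have := congrArg Sigma.fst h
            simp only at this
            omega
        rw [this]
        exact (Set.finite_Iio M).biUnion fun n _ => Set.finite_range _
      exact h.preimage e.injective.injOn
    obtain ⟨B, hB⟩ := this.bddAbove
    refine ⟨B + 1, fun m hm => ?_⟩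
    by_contra h
    have := hB (not_le.1 h)
    omega
  · have : ∀ p : (ℕ → Bool) × (ℕ → Bool), ∃ n0, p.1 ≠ p.2 → ∃ i, i < n0 ∧ p.1 i ≠ p.2 i := by
      intro p
      by_cases h : p.1 = p.2
      · exact ⟨0, fun h' => absurd h h'⟩
      · obtain ⟨i, hi⟩ := Function.ne_iff.1 h
        exact ⟨i + 1, fun _ => ⟨i, Nat.lt_succ_self i, hi⟩⟩
    choose g hg using this
    obtain ⟨B, hB⟩ := ((hR.prod hR).image g).bddAbove
    refine ⟨B, fun n hn => ⟨e.symm ⟨n, fun s => decide (∃ r ∈ R, (fun i : Fin n => r i) = s ∧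
      c r = true)⟩, by simp, fun r hr => ?_⟩⟩
    have e0 : ∀ q : Om, (e (e.symm q)).2 (fun i => r i) = q.2 (fun i => r i) := fun q => by
      rw [e.apply_symm_apply]
    refine (e0 _).trans ?_
    simp only
    by_cases hc : c r = true
    · rw [hc]
      exact decide_eq_true ⟨r, hr, rfl, hc⟩
    · rw [Bool.not_eq_true] at hc
      rw [hc]
      apply decide_eq_false
      rintro ⟨r', hr', h1, h2⟩
      have hne : r' ≠ r := fun h => by rw [h, hc] at h2; exact absurd h2 (by simp)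
      obtain ⟨i, hi, hi'⟩ := hg (r', r) hne
      have : g (r', r) ≤ B := hB ⟨(r', r), ⟨hr', hr⟩, rfl⟩
      exact hi' (congrFun h1 ⟨i, by omega⟩)

def merge (x z : ℕ → Bool) : ℕ → Bool := fun n => if n % 2 = 0 then x (n / 2) else z (n / 2)

lemma merge_inj {x z x' z' : ℕ → Bool} (h : merge x z = merge x' z') : x = x' ∧ z = z' := by
  constructor
  · funext n
    have := congrFun h (2 * n)
    simpa [merge] using this
  · funext n
    have := congrFun h (2 * n + 1)
    have e : (2 * n + 1) / 2 = n := by omega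
    simpa [merge, e] using this

theorem main (X : Set (ℕ → Bool)) (hX : ¬ IsMeagre X) :
    ∃ 𝒜 : Set (ℕ → Bool), Indep 𝒜 ∧ ¬ IsMeagre 𝒜 ∧ #𝒜 ≤ #X := by
  classical
  obtain ⟨β, bit, hβ, hbit⟩ := blocks
  have hS : ∀ x : ℕ → Bool, ∃ b : Bool, {n | x n = b} ∈ hyperfilter ℕ := by
    intro x
    rcases (hyperfilter ℕ).mem_or_compl_mem {n | x n = true} with h | h
    · exact ⟨true, h⟩
    · refine ⟨false, ?_⟩
      convert h using 1
      ext n; simp
  choose b hb using hS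
  let a : (ℕ → Bool) × (ℕ → Bool) → ℕ → Bool := fun p m =>
    if p.1 (β m) = b p.1 then bit (merge p.1 p.2) m else p.2 m
  have key : ∀ F G : Finset (ℕ → Bool), (↑F : Set (ℕ → Bool)) ⊆ a '' (X ×ˢ X) →
      (↑G : Set (ℕ → Bool)) ⊆ a '' (X ×ˢ X) → Disjoint F G →
      {n | (∀ a ∈ F, a n = true) ∧ ∀ b ∈ G, b n = false}.Infinite := by
    intro F G hF hG hFG
    have : ∀ w : ℕ → Bool, ∃ p, w ∈ a '' (X ×ˢ X) → a p = w := by
      intro w
      by_cases h : w ∈ a '' (X ×ˢ X)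
      · obtain ⟨p, -, hp⟩ := h
        exact ⟨p, fun _ => hp⟩
      · exact ⟨(w, w), fun h' => absurd h' h⟩
    choose p hp using this
    let r : (ℕ → Bool) → ℕ → Bool := fun w => merge (p w).1 (p w).2
    obtain ⟨n0, hn0⟩ := hbit (r '' (↑(F ∪ G))) ((Finset.finite_toSet _).image _)
      (fun s => decide (∃ w ∈ F, r w = s))
    have hU : {n | n0 ≤ n ∧ ∀ w ∈ F ∪ G, (p w).1 n = b (p w).1} ∈ hyperfilter ℕ := by
      have h1 : ∀ᶠ n in (hyperfilter ℕ : Filter ℕ), n0 ≤ n :=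
        Nat.hyperfilter_le_atTop (eventually_ge_atTop n0)
      have h2 : ∀ᶠ n in (hyperfilter ℕ : Filter ℕ), ∀ w ∈ F ∪ G, (p w).1 n = b (p w).1 :=
        (eventually_all_finset _).2 fun w _ => hb _
      exact h1.and h2
    have hinf : {n | n0 ≤ n ∧ ∀ w ∈ F ∪ G, (p w).1 n = b (p w).1}.Infinite :=
      fun hf => hf.notMem_hyperfilter hU
    apply Set.Infinite.of_image β
    apply hinf.mono
    rintro n ⟨h1, h2⟩
    obtain ⟨m, hm1, hm2⟩ := hn0 n h1
    have hw : ∀ w ∈ F ∪ G, w m = decide (∃ w' ∈ F, r w' = r w) := by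
      intro w hw
      have hw' : w ∈ a '' (X ×ˢ X) := (Finset.mem_union.1 hw).elim (fun h => hF h) (fun h => hG h)
      rw [← hm2 (r w) ⟨w, hw, rfl⟩]
      conv_lhs => rw [← hp w hw']
      simp only [a, hm1, h2 w hw, if_true, r]
    refine ⟨m, ⟨fun w h => ?_, fun w h => ?_⟩, hm1⟩
    · rw [hw w (Finset.mem_union_left _ h)]
      exact decide_eq_true ⟨w, h, rfl⟩
    · rw [hw w (Finset.mem_union_right _ h)]
      apply decide_eq_false
      rintro ⟨w', h1, h2⟩
      have := merge_inj h2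
      have e : p w' = p w := Prod.ext this.1 this.2
      have : w' = w := by rw [← hp w' (hF h1), ← hp w (hG h), e]
      exact Finset.disjoint_left.1 hFG h1 (this ▸ h)
  refine ⟨a '' (X ×ˢ X), ⟨fun w hw => ?_, key⟩, fun hM => ?_, ?_⟩
  · have := key {w} ∅ (by simpa using hw) (by simp) (by simp)
    simpa using this
  · obtain ⟨T, y, hT, hy⟩ := chopped _ hM
    have hT' : ∀ M j, ∃ k ∈ (Set.univ : Set ℕ), j ≤ k ∧ ∀ i ∈ (T k).image β, M ≤ i := by
      intro M j
      obtain ⟨k0, hk0⟩ := hβ M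
      refine ⟨max j k0, trivial, le_max_left _ _, fun i hi => ?_⟩
      obtain ⟨m, hm, rfl⟩ := Finset.mem_image.1 hi
      exact hk0 m ((le_max_right _ _).trans (hT _ m hm))
    obtain ⟨x, hx, hx1, hx2⟩ := exists_mem hX (inter_mem
      (resid (fun k => (T k).image β) (fun _ _ => true) _ hT')
      (resid (fun k => (T k).image β) (fun _ _ => false) _ hT'))
    have hN : ∀ j, ∃ k, j ≤ k ∧ ∀ i ∈ T k, x (β i) ≠ b x := by
      intro j
      cases hbx : b x
      · obtain ⟨k, -, h1, h2⟩ := hx1 j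
        exact ⟨k, h1, fun i hi => by rw [h2 _ (Finset.mem_image_of_mem β hi)]; simp⟩
      · obtain ⟨k, -, h1, h2⟩ := hx2 j
        exact ⟨k, h1, fun i hi => by rw [h2 _ (Finset.mem_image_of_mem β hi)]; simp⟩
    obtain ⟨z, hz, hz'⟩ := exists_mem hX (resid T y {k | ∀ i ∈ T k, x (β i) ≠ b x} (by
      intro M j
      obtain ⟨k, h1, h2⟩ := hN (max M j)
      exact ⟨k, h2, (le_max_right _ _).trans h1,
        fun i hi => ((le_max_left _ _).trans h1).trans (hT k i hi)⟩))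
    apply hy (a (x, z)) _ ⟨(x, z), ⟨hx, hz⟩, rfl⟩
    intro j
    obtain ⟨k, h1, h2, h3⟩ := hz' j
    refine ⟨k, h2, fun i hi => ?_⟩
    simp only [a, h1 i hi, if_false]
    exact h3 i hi
  · have hinf : X.Infinite := by
      intro hf
      apply hX
      rw [← Set.biUnion_of_singleton X]
      apply isMeagre_biUnion hf.countable
      intro x _
      refine mem_of_superset (resid (fun k => {k}) (fun k i => !x i) Set.univ ?_) ?_
      · intro M j
        exact ⟨max M j, trivial, le_max_right _ _, by simp⟩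
      · rintro w hw rfl
        obtain ⟨k, -, -, h⟩ := hw 0
        simpa using h k
    refine Cardinal.mk_image_le.trans ?_
    rw [Cardinal.mk_setProd, Cardinal.mul_eq_self (Cardinal.infinite_iff.1 hinf.to_subtype)]

/-- `i(meager) = non(meager)`, both minima being attained. -/
theorem result : (∃ 𝒜 : Set (ℕ → Bool), Indep 𝒜 ∧ ¬ IsMeagre 𝒜 ∧ #𝒜 = nonMeager) ∧
    iMeager = nonMeager := by
  have h0 : {κ | ∃ X : Set (ℕ → Bool), ¬ IsMeagre X ∧ #X = κ}.Nonempty :=
    ⟨_, Set.univ, not_isMeagre_of_isOpen isOpen_univ Set.univ_nonempty, rfl⟩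
  obtain ⟨X, hX, hX'⟩ := csInf_mem h0
  obtain ⟨𝒜, h1, h2, h3⟩ := main X hX
  have h4 : #𝒜 = nonMeager := le_antisymm (h3.trans hX'.le) (csInf_le' ⟨𝒜, h2, rfl⟩)
  refine ⟨⟨𝒜, h1, h2, h4⟩, le_antisymm (csInf_le' ⟨𝒜, h1, h2, h4⟩) ?_⟩
  have h6 : {κ | ∃ 𝒜 : Set (ℕ → Bool), Indep 𝒜 ∧ ¬ IsMeagre 𝒜 ∧ #𝒜 = κ}.Nonempty :=
    ⟨_, 𝒜, h1, h2, rfl⟩
  apply le_csInf h6
  rintro _ ⟨ℬ, -, h5, rfl⟩
  exact csInf_le' ⟨ℬ, h5, rfl⟩

end Pool.Agent.Results.MP_fb02e9_lc.Equal
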